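import Pool.Agent.W92.ET.Base2

/-!
# Counting: consequences of `1 ≤ r ≤ K` (project ET, quantitative version, part COUNT)
-/

set_option autoImplicit false

namespace Pool.Agent.W935.ET

open Pool.Agent.W92.ET

lemma mem_tr {A : Set ℕ} {N a : ℕ} : a ∈ tr A N ↔ (1 ≤ a ∧ a ≤ N) ∧ a ∈ A := by
  classical
  unfold tr
  rw [Finset.mem_filter, Finset.mem_Icc]

/-- the set counted by `uc` -/
def US (A : Set ℕ) (n : ℕ) : Set (ℕ × ℕ) := {p | p.1 ∈ A ∧ p.2 ∈ A ∧ p.1 ≤ p.2 ∧ p.1 + p.2 = n}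

/-- the set counted by `rs` -/
def RS (B : Finset ℕ) (n : ℕ) : Finset (ℕ × ℕ) := (Pr B).filter (fun x => x.1 + x.2 = n)

lemma mem_RS {B : Finset ℕ} {n : ℕ} {x : ℕ × ℕ} :
    x ∈ RS B n ↔ x.1 ∈ B ∧ x.2 ∈ B ∧ x.1 < x.2 ∧ x.1 + x.2 = n := by
  unfold RS Pr
  rw [Finset.mem_filter, Finset.mem_filter, Finset.mem_product]
  tauto

lemma US_fin (A : Set ℕ) (n : ℕ) : (US A n).Finite := by
  refine (Finset.finite_toSet (Finset.HasAntidiagonal.antidiagonal n)).subset ?_
  rintro x ⟨-, -, -, h⟩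
  simpa using h

lemma RS_sub (A : Set ℕ) (N n : ℕ) : (RS (tr A N) n : Set (ℕ × ℕ)) ⊆ US A n := by
  intro x hx
  rw [Finset.mem_coe, mem_RS, mem_tr, mem_tr] at hx
  exact ⟨hx.1.2, hx.2.1.2, hx.2.2.1.le, hx.2.2.2⟩

lemma rs_le_uc (A : Set ℕ) (N n : ℕ) : rs (tr A N) n ≤ uc A n := by
  have h := Set.ncard_le_ncard (RS_sub A N n) (US_fin A n)
  rw [Set.ncard_coe_finset] at h
  exact h

lemma rs_le_n (B : Finset ℕ) (n : ℕ) : rs B n ≤ n + 1 := by
  have h : RS B n ⊆ Finset.HasAntidiagonal.antidiagonal n := by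
    intro x hx
    rw [mem_RS] at hx
    simpa using hx.2.2.2
  have h2 := Finset.card_le_card h
  rw [Finset.Nat.card_antidiagonal] at h2
  exact h2

lemma uc_eq (A : Set ℕ) (h0 : 0 ∉ A) (N n : ℕ) (hn : 1 ≤ n) (hN : n ≤ N) :
    uc A n = rs (tr A N) n + if (∃ a ∈ tr A N, 2 * a = n) then 1 else 0 := by
  classical
  by_cases he : ∃ a ∈ tr A N, 2 * a = n
  · rw [if_pos he]
    obtain ⟨a, ha, han⟩ := he
    have hnm : ((a, a) : ℕ × ℕ) ∉ RS (tr A N) n := by
      rw [mem_RS]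
      rintro ⟨-, -, h, -⟩
      exact lt_irrefl _ h
    have h1 : US A n = (insert (a, a) (RS (tr A N) n) : Finset (ℕ × ℕ)) := by
      ext x
      rw [Finset.mem_coe, Finset.mem_insert, mem_RS, mem_tr, mem_tr]
      constructor
      · rintro ⟨h2, h3, h4, h5⟩
        by_cases h6 : x.1 = x.2
        · left
          ext
          · simp only
            omega
          · simp only
            omega
        · right
          have h7 : x.1 ≠ 0 := fun h => h0 (h ▸ h2)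
          refine ⟨⟨⟨?_, ?_⟩, h2⟩, ⟨⟨?_, ?_⟩, h3⟩, ?_, h5⟩ <;> omega
      · rintro (h | h)
        · subst h
          exact ⟨(mem_tr.1 ha).2, (mem_tr.1 ha).2, le_refl _, by simp only; omega⟩
        · exact ⟨h.1.2, h.2.1.2, h.2.2.1.le, h.2.2.2⟩
    show (US A n).ncard = (RS (tr A N) n).card + 1
    rw [h1, Set.ncard_coe_finset, Finset.card_insert_of_notMem hnm]
  · rw [if_neg he, add_zero]
    have h1 : US A n = (RS (tr A N) n : Finset (ℕ × ℕ)) := by
      ext x
      rw [Finset.mem_coe, mem_RS, mem_tr, mem_tr]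
      constructor
      · rintro ⟨h2, h3, h4, h5⟩
        have h7 : x.1 ≠ 0 := fun h => h0 (h ▸ h2)
        have h6 : x.1 ≠ x.2 := by
          intro h6
          refine he ⟨x.1, mem_tr.2 ⟨⟨?_, ?_⟩, h2⟩, ?_⟩ <;> omega
        refine ⟨⟨⟨?_, ?_⟩, h2⟩, ⟨⟨?_, ?_⟩, h3⟩, ?_, h5⟩ <;> omega
      · intro h
        exact ⟨h.1.2, h.2.1.2, h.2.2.1.le, h.2.2.2⟩
    show (US A n).ncard = (RS (tr A N) n).card
    rw [h1, Set.ncard_coe_finset]

lemma RR_eq (A : Set ℕ) (N : ℕ) : RR (tr A N) =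
    ∑ n ∈ Finset.Icc 1 (2 * N), 1 / (n : ℝ) * (rs (tr A N) n : ℝ) := by
  unfold RR
  rw [← Finset.sum_fiberwise_of_maps_to (t := Finset.Icc 1 (2 * N)) (g := fun x => x.1 + x.2)]
  · refine Finset.sum_congr rfl fun n _ => ?_
    have h1 : ∀ x ∈ (Pr (tr A N)).filter (fun x => x.1 + x.2 = n),
        1 / ((x.1 : ℝ) + x.2) = 1 / (n : ℝ) := by
      intro x hx
      rw [Finset.mem_filter] at hx
      rw [← hx.2]
      push_cast
      rfl
    rw [Finset.sum_congr rfl h1, Finset.sum_const, nsmul_eq_mul, mul_comm]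
    rfl
  · intro x hx
    unfold Pr at hx
    rw [Finset.mem_filter, Finset.mem_product, mem_tr, mem_tr] at hx
    rw [Finset.mem_Icc]
    omega

lemma log_le (N : ℕ) (hN : 1 ≤ N) : Real.log N ≤ ∑ n ∈ Finset.Icc 1 N, 1 / (n : ℝ) := by
  have h := log_add_one_le_harmonic N
  rw [harmonic_eq_sum_Icc] at h
  push_cast at h
  have h2 : Real.log N ≤ Real.log (N + 1) := by
    refine Real.log_le_log ?_ (by linarith)
    exact_mod_cast hN
  refine h2.trans (h.trans (le_of_eq ?_))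
  refine Finset.sum_congr rfl fun n _ => ?_
  rw [one_div]

lemma dbl_le (A : Set ℕ) (N : ℕ) (C' : ℝ) (hC : ∑ a ∈ tr A N, 1 / (a : ℝ) ≤ C') :
    ∑ n ∈ Finset.Icc 1 N, 1 / (n : ℝ) * (if (∃ a ∈ tr A N, 2 * a = n) then 1 else 0) ≤ C' / 2 := by
  classical
  have h1 : ∑ n ∈ Finset.Icc 1 N, 1 / (n : ℝ) * (if (∃ a ∈ tr A N, 2 * a = n) then 1 else 0) =
      ∑ n ∈ (Finset.Icc 1 N).filter (fun n => ∃ a ∈ tr A N, 2 * a = n), 1 / (n : ℝ) := by
    rw [Finset.sum_filter]
    refine Finset.sum_congr rfl fun n _ => ?_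
    split_ifs <;> simp
  rw [h1]
  have h2 : (Finset.Icc 1 N).filter (fun n => ∃ a ∈ tr A N, 2 * a = n) ⊆
      (tr A N).image (fun a => 2 * a) := by
    intro n hn
    rw [Finset.mem_filter] at hn
    rw [Finset.mem_image]
    exact hn.2
  refine (Finset.sum_le_sum_of_subset_of_nonneg h2 (fun n _ _ => by positivity)).trans ?_
  rw [Finset.sum_image (fun a _ b _ h => by simpa using h)]
  have h3 : ∑ a ∈ tr A N, 1 / (((2 * a : ℕ) : ℝ)) = (∑ a ∈ tr A N, 1 / (a : ℝ)) / 2 := by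
    rw [Finset.sum_div]
    refine Finset.sum_congr rfl fun a _ => ?_
    push_cast
    rw [div_div, mul_comm]
  rw [h3]
  linarith

theorem count2 : S_count2 := by
  classical
  intro A n₀ K h0 hr C' hC'
  have hC0 : 0 ≤ C' := by
    refine le_trans ?_ (hC' 0)
    exact Finset.sum_nonneg fun a _ => by positivity
  set M : ℝ := max K n₀ with hM
  have hM0 : 0 ≤ M := le_trans (Nat.cast_nonneg K) (le_max_left _ _)
  -- bound on `rs`
  have hrs : ∀ N n, (rs (tr A N) n : ℝ) ≤ M := by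
    intro N n
    by_cases hn : n₀ ≤ n
    · refine le_trans ?_ (le_max_left _ _)
      exact_mod_cast (rs_le_uc A N n).trans (hr n hn).2
    · refine le_trans ?_ (le_max_right _ _)
      have := rs_le_n (tr A N) n
      exact_mod_cast this.trans (by omega)
  refine ⟨3 * C' / 2 + M ^ 2 + n₀, fun N hN => ⟨?_, ?_⟩⟩
  · -- the first inequality
    have hsplit : Finset.Icc 1 (2 * N) = Finset.Icc 1 N ∪ Finset.Ioc N (2 * N) := by
      ext n
      simp only [Finset.mem_union, Finset.mem_Icc, Finset.mem_Ioc]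
      omega
    have hdisj : Disjoint (Finset.Icc 1 N) (Finset.Ioc N (2 * N)) := by
      rw [Finset.disjoint_left]
      intro n h1 h2
      rw [Finset.mem_Icc] at h1
      rw [Finset.mem_Ioc] at h2
      omega
    have hT1 : ∑ n ∈ Finset.Icc 1 N, 1 / (n : ℝ) * ((rs (tr A N) n : ℝ) *
        ((rs (tr A N) n : ℝ) - 1) + if (∃ a ∈ tr A N, 2 * a = n) then (rs (tr A N) n : ℝ) else 0) ≤
        3 * ∑ n ∈ Finset.Icc 1 N, 1 / (n : ℝ) * (rs (tr A N) n : ℝ) -
          3 * ∑ n ∈ Finset.Icc 1 N, 1 / (n : ℝ) +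
          ∑ n ∈ Finset.Icc 1 N, 1 / (n : ℝ) * (((uc A n : ℝ) - 1) * ((uc A n : ℝ) - 3)) +
          3 * ∑ n ∈ Finset.Icc 1 N, 1 / (n : ℝ) *
            (if (∃ a ∈ tr A N, 2 * a = n) then 1 else 0) := by
      rw [Finset.mul_sum, Finset.mul_sum, Finset.mul_sum, ← Finset.sum_sub_distrib,
        ← Finset.sum_add_distrib, ← Finset.sum_add_distrib]
      refine Finset.sum_le_sum fun n hn => ?_
      rw [Finset.mem_Icc] at hn
      have hu := uc_eq A h0 N n hn.1 hn.2
      have hu' : (uc A n : ℝ) = (rs (tr A N) n : ℝ) +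
          if (∃ a ∈ tr A N, 2 * a = n) then 1 else 0 := by
        rw [hu]
        push_cast
        rfl
      rw [hu']
      have hn0 : (0 : ℝ) < 1 / (n : ℝ) := by
        have : (0 : ℝ) < n := by exact_mod_cast hn.1
        positivity
      have hr0 : (0 : ℝ) ≤ rs (tr A N) n := Nat.cast_nonneg _
      split_ifs with he
      · have : (0 : ℝ) ≤ 1 / (n : ℝ) * (rs (tr A N) n : ℝ) := mul_nonneg hn0.le hr0
        nlinarith
      · apply le_of_eq
        ring
    have hT2 : ∑ n ∈ Finset.Ioc N (2 * N), 1 / (n : ℝ) * ((rs (tr A N) n : ℝ) *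
        ((rs (tr A N) n : ℝ) - 1) + if (∃ a ∈ tr A N, 2 * a = n) then (rs (tr A N) n : ℝ) else 0) ≤
        M ^ 2 := by
      have hNpos : (0 : ℝ) < N := by exact_mod_cast hN
      have h1 : ∀ n ∈ Finset.Ioc N (2 * N), 1 / (n : ℝ) * ((rs (tr A N) n : ℝ) *
          ((rs (tr A N) n : ℝ) - 1) + if (∃ a ∈ tr A N, 2 * a = n) then (rs (tr A N) n : ℝ)
            else 0) ≤ 1 / (N : ℝ) * M ^ 2 := by
        intro n hn
        rw [Finset.mem_Ioc] at hn
        have hr0 : (0 : ℝ) ≤ rs (tr A N) n := Nat.cast_nonneg _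
        have hr1 := hrs N n
        have h2 : (rs (tr A N) n : ℝ) * ((rs (tr A N) n : ℝ) - 1) +
            (if (∃ a ∈ tr A N, 2 * a = n) then (rs (tr A N) n : ℝ) else 0) ≤ M ^ 2 := by
          have h3 : (rs (tr A N) n : ℝ) * (rs (tr A N) n : ℝ) ≤ M ^ 2 := by
            rw [sq]
            exact mul_le_mul hr1 hr1 hr0 hM0
          split_ifs <;> nlinarith
        have h4 : 1 / (n : ℝ) ≤ 1 / (N : ℝ) := by
          apply one_div_le_one_div_of_le hNpos
          exact_mod_cast hn.1.le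
        have h5 : (0 : ℝ) ≤ 1 / (n : ℝ) := by positivity
        calc _ ≤ 1 / (n : ℝ) * M ^ 2 := mul_le_mul_of_nonneg_left h2 h5
          _ ≤ 1 / (N : ℝ) * M ^ 2 := mul_le_mul_of_nonneg_right h4 (sq_nonneg _)
      refine (Finset.sum_le_sum h1).trans (le_of_eq ?_)
      rw [Finset.sum_const, Nat.card_Ioc, nsmul_eq_mul]
      have : (2 * N - N : ℕ) = N := by omega
      rw [this]
      field_simp
    have hRR : ∑ n ∈ Finset.Icc 1 N, 1 / (n : ℝ) * (rs (tr A N) n : ℝ) ≤ RR (tr A N) := by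
      rw [RR_eq, hsplit, Finset.sum_union hdisj]
      have : (0 : ℝ) ≤ ∑ n ∈ Finset.Ioc N (2 * N), 1 / (n : ℝ) * (rs (tr A N) n : ℝ) :=
        Finset.sum_nonneg fun n _ => by positivity
      linarith
    have hlog := log_le N hN
    have hd := dbl_le A N C' (hC' N)
    rw [hsplit, Finset.sum_union hdisj]
    have hn0 : (0 : ℝ) ≤ n₀ := Nat.cast_nonneg _
    linarith
  · -- the second inequality
    have hsub : Finset.Icc 1 N ⊆ Finset.Icc 1 (2 * N) := by
      intro n hn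
      rw [Finset.mem_Icc] at hn ⊢
      omega
    have h1 : ∑ n ∈ Finset.Icc 1 N, 1 / (n : ℝ) * (rs (tr A N) n : ℝ) ≤ RR (tr A N) := by
      rw [RR_eq]
      exact Finset.sum_le_sum_of_subset_of_nonneg hsub (fun n _ _ => by positivity)
    have h2 : ∑ n ∈ Finset.Icc 1 N, 1 / (n : ℝ) - ∑ n ∈ Finset.Icc 1 N, 1 / (n : ℝ) *
        (if (∃ a ∈ tr A N, 2 * a = n) then 1 else 0) -
        ∑ n ∈ Finset.Icc 1 N, (if n < n₀ then (1 : ℝ) else 0) ≤
        ∑ n ∈ Finset.Icc 1 N, 1 / (n : ℝ) * (rs (tr A N) n : ℝ) := by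
      rw [← Finset.sum_sub_distrib, ← Finset.sum_sub_distrib]
      refine Finset.sum_le_sum fun n hn => ?_
      rw [Finset.mem_Icc] at hn
      have hn0 : (0 : ℝ) < 1 / (n : ℝ) := by
        have : (0 : ℝ) < n := by exact_mod_cast hn.1
        positivity
      have hn1 : 1 / (n : ℝ) ≤ 1 := by
        rw [div_le_one (by exact_mod_cast hn.1)]
        exact_mod_cast hn.1
      have hr0 : (0 : ℝ) ≤ rs (tr A N) n := Nat.cast_nonneg _
      have hpr : (0 : ℝ) ≤ 1 / (n : ℝ) * (rs (tr A N) n : ℝ) := mul_nonneg hn0.le hr0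
      by_cases hlt : n < n₀
      · rw [if_pos hlt]
        split_ifs <;> nlinarith
      · rw [if_neg hlt]
        have hu := uc_eq A h0 N n hn.1 hn.2
        have hu1 := (hr n (not_lt.1 hlt)).1
        have hu' : (1 : ℝ) ≤ (rs (tr A N) n : ℝ) +
            if (∃ a ∈ tr A N, 2 * a = n) then 1 else 0 := by
          rw [hu] at hu1
          exact_mod_cast hu1
        nlinarith
    have h3 : ∑ n ∈ Finset.Icc 1 N, (if n < n₀ then (1 : ℝ) else 0) ≤ n₀ := by
      rw [Finset.sum_boole]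
      have : (Finset.Icc 1 N).filter (fun n => n < n₀) ⊆ Finset.range n₀ := by
        intro n hn
        rw [Finset.mem_filter] at hn
        rw [Finset.mem_range]
        exact hn.2
      have h4 := Finset.card_le_card this
      rw [Finset.card_range] at h4
      exact_mod_cast h4
    have hlog := log_le N hN
    have hd := dbl_le A N C' (hC' N)
    have : 0 ≤ M ^ 2 := sq_nonneg _
    linarith

end Pool.Agent.W935.ET
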